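import Pool.Agent.Work.MP_0890ba_co.Draw

/-!
# The graphs `T n` are not `(4 m + e, m)`-choosable for `5 e < 2 m` and large `n`
-/

namespace Pool.Agent.Work.MP_0890ba_co

noncomputable instance (n : ℕ) : Fintype (Vx n) :=
  Fintype.ofInjective (fun w : Vx n => (match w with
    | .u => (0, none)
    | .v => (1, none)
    | .c j => (2, some j)
    | .z j => (3, some j)
    | .y j => (4, some j) : Fin 5 × Option (Fin n))) (by
    intro a b h
    cases a <;> cases b <;> simp_all)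

/-- Enumeration of a nonempty finite set. -/
lemma exists_enum {α : Type} (s : Finset α) (p0 : α) (h0 : p0 ∈ s) :
    ∃ (N : ℕ) (P : ℕ → α), (∀ i, P i ∈ s) ∧ ∀ p ∈ s, ∃ i < N, P i = p := by
  refine ⟨s.toList.length, fun i => s.toList.getD i p0, ?_, ?_⟩
  · intro i
    simp only [List.getD_eq_getElem?_getD]
    rcases Nat.lt_or_ge i s.toList.length with h | h
    · rw [List.getElem?_eq_getElem h, Option.getD_some]
      exact Finset.mem_toList.1 (List.getElem_mem h)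
    · rw [List.getElem?_eq_none h, Option.getD_none]
      exact h0
  · intro p hp
    obtain ⟨i, hi, hip⟩ := List.getElem_of_mem (Finset.mem_toList.2 hp)
    refine ⟨i, hi, ?_⟩
    simp only [List.getD_eq_getElem?_getD]
    rw [List.getElem?_eq_getElem hi, Option.getD_some, hip]

/-- Left ends of the intervals for the vertices `c`. -/
def cs (m e : ℕ) : ℕ → ℕ
  | 0 => 0
  | 1 => 2 * m + e
  | 2 => 4 * m + 2 * e
  | 3 => 6 * m + 2 * e
  | 4 => 8 * m + 3 * e
  | _ => 10 * m + 4 * e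

/-- Left ends of the intervals for the vertices `z` and `y`. -/
def zs (m e : ℕ) : ℕ → ℕ
  | 0 => 0
  | 1 => 3 * m + e
  | 3 => 6 * m + 3 * e
  | 4 => 9 * m + 4 * e
  | _ => 0

/-- Interval of colours. -/
noncomputable def ivl (a s l : ℕ) : Finset ℤ := Finset.Ico ((a : ℤ) + s) (a + s + l)

lemma card_ivl (a s l : ℕ) : (ivl a s l).card = l := by
  simp [ivl]

/-- The lists. -/
noncomputable def lst (m e n : ℕ) (P : ℕ → Finset ℤ × Finset ℤ) : Vx n → Finset ℤ
  | .u => Finset.Ico 0 (4 * m + e : ℤ)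
  | .v => Finset.Ico 0 (4 * m + e : ℤ)
  | .c j => (P (j.val / 6)).1 ∪ (P (j.val / 6)).2 ∪ ivl (4 * m + e) (cs m e (j.val % 6)) (2 * m + e)
  | .z j => (P (j.val / 6)).1 ∪ ivl (4 * m + e) (zs m e (j.val % 6)) (3 * m + e)
  | .y j => (P (j.val / 6)).2 ∪ ivl (4 * m + e) (zs m e (j.val % 6)) (3 * m + e)

/-- Good pairs. -/
def Good (m e : ℕ) (p : Finset ℤ × Finset ℤ) : Prop :=
  p.1 ⊆ Finset.Ico 0 (4 * m + e : ℤ) ∧ p.2 ⊆ Finset.Ico 0 (4 * m + e : ℤ) ∧
    p.1.card = m ∧ p.2.card = m ∧ Disjoint p.1 p.2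

lemma disj_ivl {m e : ℕ} {A : Finset ℤ} (h : A ⊆ Finset.Ico 0 (4 * m + e : ℤ)) (s l : ℕ) :
    Disjoint A (ivl (4 * m + e) s l) := by
  rw [Finset.disjoint_left]
  intro x hx hx2
  have h1 := Finset.mem_Ico.1 (h hx)
  have h2 := Finset.mem_Ico.1 hx2
  push_cast at h2
  omega

lemma card_lst (m e n : ℕ) (P : ℕ → Finset ℤ × Finset ℤ) (hP : ∀ i, Good m e (P i))
    (w : Vx n) : (lst m e n P w).card = 4 * m + e := by
  cases w with
  | u => simp only [lst, Int.card_Ico]; omega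
  | v => simp only [lst, Int.card_Ico]; omega
  | c j =>
    obtain ⟨h1, h2, h3, h4, h5⟩ := hP (j.val / 6)
    simp only [lst]
    rw [Finset.card_union_of_disjoint, Finset.card_union_of_disjoint h5, card_ivl, h3, h4]
    · ring
    · rw [Finset.disjoint_union_left]
      exact ⟨disj_ivl h1 _ _, disj_ivl h2 _ _⟩
  | z j =>
    obtain ⟨h1, h2, h3, h4, h5⟩ := hP (j.val / 6)
    simp only [lst]
    rw [Finset.card_union_of_disjoint (disj_ivl h1 _ _), card_ivl, h3]
    ring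
  | y j =>
    obtain ⟨h1, h2, h3, h4, h5⟩ := hP (j.val / 6)
    simp only [lst]
    rw [Finset.card_union_of_disjoint (disj_ivl h2 _ _), card_ivl, h4]
    ring

/-- The fourteen vertices of a copy. -/
def vert (n i : ℕ) (h : 6 * i + 5 < n) : Fin 14 → Vx n
  | 0 => .c ⟨6 * i, by omega⟩
  | 1 => .c ⟨6 * i + 1, by omega⟩
  | 2 => .c ⟨6 * i + 2, by omega⟩
  | 3 => .c ⟨6 * i + 3, by omega⟩
  | 4 => .c ⟨6 * i + 4, by omega⟩
  | 5 => .c ⟨6 * i + 5, by omega⟩
  | 6 => .z ⟨6 * i, by omega⟩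
  | 7 => .z ⟨6 * i + 1, by omega⟩
  | 8 => .z ⟨6 * i + 3, by omega⟩
  | 9 => .z ⟨6 * i + 4, by omega⟩
  | 10 => .y ⟨6 * i, by omega⟩
  | 11 => .y ⟨6 * i + 1, by omega⟩
  | 12 => .y ⟨6 * i + 3, by omega⟩
  | 13 => .y ⟨6 * i + 4, by omega⟩

/-- Left ends of their intervals. -/
def lo (m e : ℕ) : Fin 14 → ℕ
  | 0 => 0
  | 1 => 2 * m + e
  | 2 => 4 * m + 2 * e
  | 3 => 6 * m + 2 * e
  | 4 => 8 * m + 3 * e
  | 5 => 10 * m + 4 * e
  | 6 => 0
  | 7 => 3 * m + e
  | 8 => 6 * m + 3 * e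
  | 9 => 9 * m + 4 * e
  | 10 => 0
  | 11 => 3 * m + e
  | 12 => 6 * m + 3 * e
  | 13 => 9 * m + 4 * e

/-- Lengths of their intervals. -/
def ln (m e : ℕ) (k : Fin 14) : ℕ := if k.val < 6 then 2 * m + e else 3 * m + e

lemma pairs (m e n i : ℕ) (h : 6 * i + 5 < n) (p q : Fin 14) (hpq : p < q) :
    (T n).Adj (vert n i h p) (vert n i h q) ∨ lo m e p + ln m e p ≤ lo m e q ∨
      lo m e q + ln m e q ≤ lo m e p := by
  fin_cases p <;> fin_cases q <;> first
    | (exfalso; revert hpq; decide)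
    | (right; left; simp [lo, ln] <;> omega)
    | (right; right; simp [lo, ln] <;> omega)
    | (left; simp only [vert]; first
        | exact Or.inl (Ed.B _)
        | exact Or.inr (Ed.B _)
        | exact Or.inl (Ed.B' _)
        | exact Or.inr (Ed.B' _)
        | exact Or.inl (Ed.C _ _ rfl)
        | exact Or.inr (Ed.C _ _ rfl)
        | exact Or.inl (Ed.C' _ _ rfl)
        | exact Or.inr (Ed.C' _ _ rfl)
        | exact Or.inl (Ed.H _ (by first | omega | (dsimp only; omega)))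
        | exact Or.inl (Ed.V _ _ rfl (by first | omega | (dsimp only; omega))))

end Pool.Agent.Work.MP_0890ba_co
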