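import Mathlib

/-!
# Multiple list colouring of planar graphs: definitions
-/

namespace Pool.Agent.Work.MP_0890ba_co

/-- `G` is `(a, b)`-choosable: for every assignment `L` of sets of `a` integers to the vertices
there are subsets `S v` of `L v` with `b` elements which are disjoint for adjacent vertices. -/
def Choosable {V : Type} (G : SimpleGraph V) (a b : ℕ) : Prop :=
  ∀ L : V → Finset ℤ, (∀ v, (L v).card = a) →
    ∃ S : V → Finset ℤ, (∀ v, S v ⊆ L v ∧ (S v).card = b) ∧
      ∀ u v, G.Adj u v → Disjoint (S u) (S v)

/-- `G` is strongly fractional `r`-choosable: it is `(a, b)`-choosable for all positive integers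
`a ≥ b` with `a / b ≥ r`. -/
def StronglyChoosable {V : Type} (G : SimpleGraph V) (r : ℝ) : Prop :=
  ∀ a b : ℕ, 0 < b → b ≤ a → r ≤ (a : ℝ) / b → Choosable G a b

/-- The strong fractional choice number of `G`: the infimum of all real `r` such that `G` is
strongly fractional `r`-choosable. -/
noncomputable def chsf {V : Type} (G : SimpleGraph V) : EReal :=
  ⨅ (r : ℝ) (_ : StronglyChoosable G r), (r : EReal)

/-- `f` is a straight line drawing of `G` in the plane without crossings: `f` is injective on the
vertices, no edge passes through a vertex which is not one of its ends, and two different edges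
meet at most in a common end. -/
structure IsPlaneDrawing {V : Type} (G : SimpleGraph V) (f : V → ℝ × ℝ) : Prop where
  inj : Function.Injective f
  vertex : ∀ a b w, G.Adj a b → f w ∈ segment ℝ (f a) (f b) → w = a ∨ w = b
  cross : ∀ a b c d p, G.Adj a b → G.Adj c d → s(a, b) ≠ s(c, d) →
    p ∈ segment ℝ (f a) (f b) → p ∈ segment ℝ (f c) (f d) →
    ∃ w, (w = a ∨ w = b) ∧ (w = c ∨ w = d) ∧ p = f w

/-- `G` is planar: it has a straight line drawing in the plane without crossings. -/
def Planar {V : Type} (G : SimpleGraph V) : Prop := ∃ f : V → ℝ × ℝ, IsPlaneDrawing G f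

/-- The strong fractional choice number of the class of finite planar graphs. -/
noncomputable def chsfPlanar : EReal :=
  ⨆ (V : Type) (_ : Fintype V) (G : SimpleGraph V) (_ : Planar G), chsf G

end Pool.Agent.Work.MP_0890ba_co
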