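import Pool.Agent.Work.MP_0890ba_co.Plane

/-!
# The graphs `T n` are planar
-/

namespace Pool.Agent.Work.MP_0890ba_co

lemma pair_ext {p q : ℝ × ℝ} (h1 : p.1 = q.1) (h2 : p.2 = q.2) : p = q := Prod.ext h1 h2

lemma ne3 (i j : ℕ) (h : (4 : ℝ) ^ i = 3 * 4 ^ j) : False := by
  have hX := pw_pos i
  have hY := pw_pos j
  rcases pw_cmp i j with h1 | h1 | h1
  · subst h1; linarith
  · linarith
  · linarith

lemma ne32 (i j : ℕ) (h : (3 : ℝ) / 2 * 4 ^ i = 4 ^ j) : False := by
  have hX := pw_pos i
  have hY := pw_pos j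
  rcases pw_cmp i j with h1 | h1 | h1
  · subst h1; linarith
  · linarith
  · linarith

lemma special_pos {n : ℕ} (w : Vx n) : Special |(pos w).1| (pos w).2 := by
  cases w with
  | u => left; simp [pos]
  | v => left; simp [pos]
  | c j => right; right; exact ⟨j.val, by simp [pos], rfl⟩
  | z j => right; left; exact ⟨j.val, by simp [pos], rfl⟩
  | y j => right; left; exact ⟨j.val, by simp [pos], rfl⟩

lemma abs_one_np {x : ℝ} (h : x ≤ 0) {a : ℝ} (h1 : |x| = a) : x = -a := by
  rw [abs_of_nonpos h] at h1; linarith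

lemma abs_one_nn {x : ℝ} (h : 0 ≤ x) {a : ℝ} (h1 : |x| = a) : x = a := by
  rwa [abs_of_nonneg h] at h1

/-- A special point of an edge is one of its ends. -/
lemma special_end {n : ℕ} {a b : Vx n} (h : Ed n a b) {p : ℝ × ℝ}
    (hp : p ∈ segment ℝ (pos a) (pos b)) (hs : Special |p.1| p.2) : p = pos a ∨ p = pos b := by
  obtain ⟨k, hk, hr⟩ := ed_on h hp
  generalize hx : p.1 = x at *
  cases hr with
  | O =>
    obtain ⟨-, -, hy⟩ := hk
    rcases hs with ⟨h1, -⟩ | ⟨l, -, h1⟩ | ⟨l, -, h1⟩
    · rcases le_total x 0 with h2 | h2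
      · left; exact pair_ext (by rw [hx, abs_one_np h2 h1]; rfl) (by rw [hy]; rfl)
      · right; exact pair_ext (by rw [hx, abs_one_nn h2 h1]; rfl) (by rw [hy]; rfl)
    · have := pw_pos l; exfalso; linarith
    · have := pw_pos l; exfalso; linarith
  | A j _ hx0 =>
    obtain ⟨-, -, hy⟩ := hk
    rcases hs with ⟨h1, h2⟩ | ⟨l, h1, h2⟩ | ⟨l, h1, h2⟩
    · left; exact pair_ext (by rw [hx, abs_one_np hx0 h1]; rfl) (by rw [h2]; rfl)
    · exfalso; rw [h1] at hy; exact ne3 j l (by linarith)
    · right
      refine pair_ext (by rw [hx, abs_one_np hx0 h1]; simp [pos]) ?_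
      rw [hy, h1]; simp [pos]
  | A' j _ hx0 =>
    obtain ⟨-, -, hy⟩ := hk
    rcases hs with ⟨h1, h2⟩ | ⟨l, h1, h2⟩ | ⟨l, h1, h2⟩
    · left; exact pair_ext (by rw [hx, abs_one_nn hx0 h1]; rfl) (by rw [h2]; rfl)
    · exfalso; rw [h1] at hy; exact ne3 j l (by linarith)
    · right
      refine pair_ext (by rw [hx, abs_one_nn hx0 h1]; simp [pos]) ?_
      rw [hy, h1]; simp [pos]
  | U j _ hx0 =>
    obtain ⟨ht, -, hy⟩ := hk
    rcases hs with ⟨h1, h2⟩ | ⟨l, h1, h2⟩ | ⟨l, h1, h2⟩
    · left; exact pair_ext (by rw [hx, abs_one_np hx0 h1]; rfl) (by rw [h2]; rfl)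
    · right
      refine pair_ext (by rw [hx, abs_one_np hx0 h1]; simp [pos]) ?_
      rw [hy, h1]; simp only [pos]; ring
    · exfalso; linarith
  | U' j _ hx0 =>
    obtain ⟨ht, -, hy⟩ := hk
    rcases hs with ⟨h1, h2⟩ | ⟨l, h1, h2⟩ | ⟨l, h1, h2⟩
    · left; exact pair_ext (by rw [hx, abs_one_nn hx0 h1]; rfl) (by rw [h2]; rfl)
    · right
      refine pair_ext (by rw [hx, abs_one_nn hx0 h1]; simp [pos]) ?_
      rw [hy, h1]; simp only [pos]; ring
    · exfalso; linarith
  | B j _ hx0 =>
    obtain ⟨-, ht, hy⟩ := hk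
    rcases hs with ⟨h1, h2⟩ | ⟨l, h1, h2⟩ | ⟨l, h1, h2⟩
    · exfalso; linarith
    · left
      refine pair_ext (by rw [hx, abs_one_np hx0 h1]; simp [pos]) ?_
      rw [hy, h1]; simp only [pos]; ring
    · right
      refine pair_ext (by rw [hx, abs_one_np hx0 h1]; simp [pos]) ?_
      rw [hy, h1]; simp only [pos]; ring
  | B' j _ hx0 =>
    obtain ⟨-, ht, hy⟩ := hk
    rcases hs with ⟨h1, h2⟩ | ⟨l, h1, h2⟩ | ⟨l, h1, h2⟩
    · exfalso; linarith
    · left
      refine pair_ext (by rw [hx, abs_one_nn hx0 h1]; simp [pos]) ?_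
      rw [hy, h1]; simp only [pos]; ring
    · right
      refine pair_ext (by rw [hx, abs_one_nn hx0 h1]; simp [pos]) ?_
      rw [hy, h1]; simp only [pos]; ring
  | C j k _ hx0 hjk =>
    obtain ⟨-, ht, hy⟩ := hk
    rcases hs with ⟨h1, h2⟩ | ⟨l, h1, h2⟩ | ⟨l, h1, h2⟩
    · exfalso; linarith
    · left
      refine pair_ext (by rw [hx, abs_one_np hx0 h1]; simp [pos]) ?_
      rw [hy, h1]; simp only [pos]; ring
    · right
      refine pair_ext (by rw [hx, abs_one_np hx0 h1]; simp [pos]) ?_
      rw [hy, h1]; simp only [pos]; rw [hjk, pow_succ]; ring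
  | C' j k _ hx0 hjk =>
    obtain ⟨-, ht, hy⟩ := hk
    rcases hs with ⟨h1, h2⟩ | ⟨l, h1, h2⟩ | ⟨l, h1, h2⟩
    · exfalso; linarith
    · left
      refine pair_ext (by rw [hx, abs_one_nn hx0 h1]; simp [pos]) ?_
      rw [hy, h1]; simp only [pos]; ring
    · right
      refine pair_ext (by rw [hx, abs_one_nn hx0 h1]; simp [pos]) ?_
      rw [hy, h1]; simp only [pos]; rw [hjk, pow_succ]; ring
  | H j _ h6 =>
    obtain ⟨-, ht, hy⟩ := hk
    rcases hs with ⟨h1, h2⟩ | ⟨l, h1, h2⟩ | ⟨l, h1, h2⟩
    · exfalso; linarith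
    · rcases le_total x 0 with h3 | h3
      · left; exact pair_ext (by rw [hx, abs_one_np h3 h1]; simp [pos]) (by rw [hy]; rfl)
      · right; exact pair_ext (by rw [hx, abs_one_nn h3 h1]; simp [pos]) (by rw [hy]; rfl)
    · exfalso; exact ne32 j l (by linarith)
  | V j k _ hjk h6 =>
    obtain ⟨ht, hy1, hy2⟩ := hk
    have hx1 : x = 0 := by simpa using ht
    rcases hs with ⟨h1, h2⟩ | ⟨l, h1, h2⟩ | ⟨l, h1, h2⟩
    · exfalso; linarith
    · exfalso; linarith
    · have hX := pw_pos j.val
      have hY := pw_pos l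
      rcases pw_cmp l j.val with h3 | h3 | h3
      · left
        exact pair_ext (by rw [hx, hx1]; rfl) (by rw [h2, h3]; rfl)
      · exfalso; linarith
      · right
        refine pair_ext (by rw [hx, hx1]; rfl) ?_
        simp only [pos]; rw [hjk, pow_succ]; linarith

lemma pow4_inj {i j : ℕ} (h : (4 : ℝ) ^ i = 4 ^ j) : i = j := by
  have hX := pw_pos i
  have hY := pw_pos j
  rcases pw_cmp i j with h1 | h1 | h1
  · exact h1
  · exfalso; linarith
  · exfalso; linarith

lemma pos_inj {n : ℕ} : Function.Injective (pos : Vx n → ℝ × ℝ) := by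
  intro a b h
  have h1 : (pos a).1 = (pos b).1 := by rw [h]
  have h2 : (pos a).2 = (pos b).2 := by rw [h]
  cases a <;> cases b <;> simp only [pos] at h1 h2 <;>
    first
    | rfl
    | (exfalso; norm_num at h1; done)
    | (congr 1; exact Fin.ext (pow4_inj (by linarith)))

/-- An edge and a different edge with the same code meet in special points only. -/
lemma rel_same {n : ℕ} {k1 k2 : K} {a b c d : Vx n} {x y : ℝ} (h1 : Rel n k1 a b x)
    (h2 : Rel n k2 c d x) (hk : k1 = k2) (hne : s(a, b) ≠ s(c, d)) (ho : OnK k1 |x| y) :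
    Special |x| y := by
  cases h1 with
  | O _ =>
    cases h2 <;> first
      | exact absurd rfl hne
      | (exfalso; cases hk)
  | A j _ hx =>
    cases h2 <;> first
      | (exfalso; cases hk)
      | skip
    · rename_i j' _
      have : j = j' := Fin.ext (by simpa using hk)
      subst this; exact absurd rfl hne
    · rename_i j' hx'
      have h0 : x = 0 := le_antisymm hx hx'
      right; right
      refine ⟨j.val, by rw [h0, abs_zero], ?_⟩
      rw [ho.2.2, h0, abs_zero]; ring
  | A' j _ hx =>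
    cases h2 <;> first
      | (exfalso; cases hk)
      | skip
    · rename_i j' hx'
      have h0 : x = 0 := le_antisymm hx' hx
      right; right
      refine ⟨j.val, by rw [h0, abs_zero], ?_⟩
      rw [ho.2.2, h0, abs_zero]; ring
    · rename_i j' _
      have : j = j' := Fin.ext (by simpa using hk)
      subst this; exact absurd rfl hne
  | U j _ hx =>
    cases h2 <;> first
      | (exfalso; cases hk)
      | skip
    · rename_i j' _
      have : j = j' := Fin.ext (by simpa using hk)
      subst this; exact absurd rfl hne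
    · rename_i j' hx'
      have h0 : x = 0 := le_antisymm hx hx'
      have := ho.1
      rw [h0, abs_zero] at this
      exfalso; linarith
  | U' j _ hx =>
    cases h2 <;> first
      | (exfalso; cases hk)
      | skip
    · rename_i j' hx'
      have h0 : x = 0 := le_antisymm hx' hx
      have := ho.1
      rw [h0, abs_zero] at this
      exfalso; linarith
    · rename_i j' _
      have : j = j' := Fin.ext (by simpa using hk)
      subst this; exact absurd rfl hne
  | B j _ hx =>
    cases h2 <;> first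
      | (exfalso; cases hk)
      | skip
    · rename_i j' _
      have : j = j' := Fin.ext (by simpa using hk)
      subst this; exact absurd rfl hne
    · rename_i j' hx'
      have h0 : x = 0 := le_antisymm hx hx'
      right; right
      refine ⟨j.val, by rw [h0, abs_zero], ?_⟩
      rw [ho.2.2, h0, abs_zero]; ring
  | B' j _ hx =>
    cases h2 <;> first
      | (exfalso; cases hk)
      | skip
    · rename_i j' hx'
      have h0 : x = 0 := le_antisymm hx' hx
      right; right
      refine ⟨j.val, by rw [h0, abs_zero], ?_⟩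
      rw [ho.2.2, h0, abs_zero]; ring
    · rename_i j' _
      have : j = j' := Fin.ext (by simpa using hk)
      subst this; exact absurd rfl hne
  | C j k _ hx hjk =>
    cases h2 <;> first
      | (exfalso; cases hk)
      | skip
    · rename_i j' k' _ hjk'
      have : j = j' := Fin.ext (by simpa using hk)
      subst this
      have : k = k' := Fin.ext (by omega)
      subst this; exact absurd rfl hne
    · rename_i j' k' _ hx'
      have h0 : x = 0 := le_antisymm hx hx'
      right; right
      refine ⟨j.val + 1, by rw [h0, abs_zero], ?_⟩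
      rw [ho.2.2, h0, abs_zero, pow_succ]; ring
  | C' j k _ hx hjk =>
    cases h2 <;> first
      | (exfalso; cases hk)
      | skip
    · rename_i j' k' _ hx'
      have h0 : x = 0 := le_antisymm hx' hx
      right; right
      refine ⟨j.val + 1, by rw [h0, abs_zero], ?_⟩
      rw [ho.2.2, h0, abs_zero, pow_succ]; ring
    · rename_i j' k' _ hjk'
      have : j = j' := Fin.ext (by simpa using hk)
      subst this
      have : k = k' := Fin.ext (by omega)
      subst this; exact absurd rfl hne
  | H j _ h6 =>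
    cases h2 <;> first
      | (exfalso; cases hk)
      | skip
    rename_i j' _
    have : j = j' := Fin.ext (by simpa using hk)
    subst this; exact absurd rfl hne
  | V j k _ hjk h6 =>
    cases h2 <;> first
      | (exfalso; cases hk)
      | skip
    rename_i j' k' hjk' _
    have : j = j' := Fin.ext (by simpa using hk)
    subst this
    have : k = k' := Fin.ext (by omega)
    subst this; exact absurd rfl hne

lemma rel_HV {n : ℕ} {k1 k2 : K} {a b c d : Vx n} {x : ℝ} (h1 : Rel n k1 a b x)
    (h2 : Rel n k2 c d x) (j : ℕ) (e1 : k1 = .H j) (e2 : k2 = .V j) : False := by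
  cases h1 <;> first
    | (cases e1; done)
    | skip
  cases h2 <;> first
    | (cases e2; done)
    | skip
  simp only [K.H.injEq, K.V.injEq] at e1 e2
  omega

lemma planar_T (n : ℕ) : IsPlaneDrawing (T n) (pos : Vx n → ℝ × ℝ) where
  inj := pos_inj
  vertex := by
    intro a b w hab hw
    rcases hab with h | h
    · rcases special_end h hw (special_pos w) with h1 | h1
      · exact Or.inl (pos_inj h1)
      · exact Or.inr (pos_inj h1)
    · rw [segment_symm] at hw
      rcases special_end h hw (special_pos w) with h1 | h1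
      · exact Or.inr (pos_inj h1)
      · exact Or.inl (pos_inj h1)
  cross := by
    -- oriented version
    have key : ∀ a b c d : Vx n, ∀ p : ℝ × ℝ, Ed n a b → Ed n c d → s(a, b) ≠ s(c, d) →
        p ∈ segment ℝ (pos a) (pos b) → p ∈ segment ℝ (pos c) (pos d) →
        ∃ w, (w = a ∨ w = b) ∧ (w = c ∨ w = d) ∧ p = pos w := by
      intro a b c d p h1 h2 hne hp1 hp2
      have hs : Special |p.1| p.2 := by
        obtain ⟨k1, ho1, hr1⟩ := ed_on h1 hp1
        obtain ⟨k2, ho2, hr2⟩ := ed_on h2 hp2
        by_cases hk : k1 = k2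
        · exact rel_same hr1 hr2 hk hne ho1
        · exact meet k1 k2 ho1 ho2 hk (fun j hj => rel_HV hr1 hr2 j hj.1 hj.2)
            (fun j hj => rel_HV hr2 hr1 j hj.2 hj.1)
      have e1 : ∃ w, (w = a ∨ w = b) ∧ p = pos w := by
        rcases special_end h1 hp1 hs with h | h
        · exact ⟨a, Or.inl rfl, h⟩
        · exact ⟨b, Or.inr rfl, h⟩
      have e2 : ∃ w, (w = c ∨ w = d) ∧ p = pos w := by
        rcases special_end h2 hp2 hs with h | h
        · exact ⟨c, Or.inl rfl, h⟩
        · exact ⟨d, Or.inr rfl, h⟩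
      obtain ⟨w1, hw1, hp1'⟩ := e1
      obtain ⟨w2, hw2, hp2'⟩ := e2
      have : w1 = w2 := pos_inj (hp1'.symm.trans hp2')
      subst this
      exact ⟨w1, hw1, hw2, hp1'⟩
    intro a b c d p hab hcd hne hp1 hp2
    rcases hab with h1 | h1 <;> rcases hcd with h2 | h2
    · exact key a b c d p h1 h2 hne hp1 hp2
    · rw [segment_symm] at hp2
      obtain ⟨w, hw1, hw2, hw3⟩ := key a b d c p h1 h2 (by rwa [Sym2.eq_swap (a := d)]) hp1 hp2
      exact ⟨w, hw1, hw2.symm, hw3⟩
    · rw [segment_symm] at hp1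
      obtain ⟨w, hw1, hw2, hw3⟩ := key b a c d p h1 h2 (by rwa [Sym2.eq_swap (a := b)]) hp1 hp2
      exact ⟨w, hw1.symm, hw2, hw3⟩
    · rw [segment_symm] at hp1 hp2
      obtain ⟨w, hw1, hw2, hw3⟩ := key b a d c p h1 h2
        (by rwa [Sym2.eq_swap (a := b), Sym2.eq_swap (a := d)]) hp1 hp2
      exact ⟨w, hw1.symm, hw2.symm, hw3⟩

end Pool.Agent.Work.MP_0890ba_co
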