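import Pool.Agent.Work.MP_0890ba_co.Colour

/-!
# Planar graphs which are not `(4 m + e, m)`-choosable, `5 e < 2 m`
-/

namespace Pool.Agent.Work.MP_0890ba_co

lemma sub_ivl {A B I S : Finset ℤ} (h : S ⊆ A ∪ B ∪ I) (h1 : Disjoint A S) (h2 : Disjoint B S) :
    S ⊆ I := by
  intro x hx
  have h3 := h hx
  simp only [Finset.mem_union] at h3
  rcases h3 with (h3 | h3) | h3
  · exact absurd hx (Finset.disjoint_left.1 h1 h3)
  · exact absurd hx (Finset.disjoint_left.1 h2 h3)
  · exact h3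

lemma sub_ivl' {A I S : Finset ℤ} (h : S ⊆ A ∪ I) (h1 : Disjoint A S) : S ⊆ I := by
  intro x hx
  have h3 := h hx
  simp only [Finset.mem_union] at h3
  rcases h3 with h3 | h3
  · exact absurd hx (Finset.disjoint_left.1 h1 h3)
  · exact h3

lemma ivl_disj (a s l s' l' : ℕ) (h : s + l ≤ s') : Disjoint (ivl a s l) (ivl a s' l') := by
  rw [Finset.disjoint_left]
  intro x hx hx2
  have h1 := Finset.mem_Ico.1 hx
  have h2 := Finset.mem_Ico.1 hx2
  omega

lemma ivl_sub (a s l L : ℕ) (h : s + l ≤ L) : ivl a s l ⊆ ivl a 0 L := by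
  intro x hx
  have h1 := Finset.mem_Ico.1 hx
  refine Finset.mem_Ico.2 ⟨?_, ?_⟩
  · push_cast; omega
  · push_cast; omega

theorem not_choosable (m e : ℕ) (h : 5 * e < 2 * m) :
    ∃ n : ℕ, ¬ Choosable (T n) (4 * m + e) m := by
  classical
  set a : ℕ := 4 * m + e with ha
  -- the finite set of good pairs
  let s0 : Finset (Finset ℤ × Finset ℤ) :=
    ((Finset.powersetCard m (Finset.Ico 0 (4 * m + e : ℤ))) ×ˢ
      (Finset.powersetCard m (Finset.Ico 0 (4 * m + e : ℤ)))).filter
        (fun p => Disjoint p.1 p.2)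
  have hs0 : ∀ p, p ∈ s0 ↔ Good m e p := by
    intro p
    simp only [s0, Finset.mem_filter, Finset.mem_product, Finset.mem_powersetCard, Good]
    tauto
  have h0 : (Finset.Ico (0 : ℤ) m, Finset.Ico (m : ℤ) (2 * m)) ∈ s0 := by
    rw [hs0]
    refine ⟨?_, ?_, by simp, by simp only [Int.card_Ico]; omega, ?_⟩
    · intro x hx
      have := Finset.mem_Ico.1 hx
      exact Finset.mem_Ico.2 ⟨by omega, by omega⟩
    · intro x hx
      have := Finset.mem_Ico.1 hx
      exact Finset.mem_Ico.2 ⟨by omega, by omega⟩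
    · rw [Finset.disjoint_left]
      intro x hx hx2
      have h1 := Finset.mem_Ico.1 hx
      have h2 := Finset.mem_Ico.1 hx2
      omega
  obtain ⟨N, P, hP, hsurj⟩ := exists_enum s0 _ h0
  have hP' : ∀ i, Good m e (P i) := fun i => (hs0 _).1 (hP i)
  refine ⟨6 * N, ?_⟩
  intro hch
  obtain ⟨S, hS, hadj⟩ := hch (lst m e (6 * N) P) (card_lst m e (6 * N) P hP')
  have huv : Disjoint (S .u) (S .v) := hadj _ _ (Or.inl Ed.O)
  obtain ⟨i, hi, hPi⟩ := hsurj (S .u, S .v) ((hs0 _).2 ⟨(hS .u).1, (hS .v).1, (hS .u).2,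
    (hS .v).2, huv⟩)
  have hn : 6 * i + 5 < 6 * N := by omega
  have hA : (P i).1 = S .u := by rw [hPi]
  have hB : (P i).2 = S .v := by rw [hPi]
  -- the colours of the fourteen vertices
  have hc : ∀ (r : ℕ) (hr : r < 6), S (.c ⟨6 * i + r, by omega⟩) ⊆
      ivl a (cs m e r) (2 * m + e) := by
    intro r hr
    have h1 := (hS (.c ⟨6 * i + r, by omega⟩)).1
    simp only [lst] at h1
    have h2 : (6 * i + r) / 6 = i := by omega
    have h3 : (6 * i + r) % 6 = r := by omega
    rw [h2, h3, hA, hB] at h1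
    exact sub_ivl h1 (hadj _ _ (Or.inl (Ed.A _))) (hadj _ _ (Or.inl (Ed.A' _)))
  have hz : ∀ (r : ℕ) (hr : r < 6), S (.z ⟨6 * i + r, by omega⟩) ⊆
      ivl a (zs m e r) (3 * m + e) := by
    intro r hr
    have h1 := (hS (.z ⟨6 * i + r, by omega⟩)).1
    simp only [lst] at h1
    have h2 : (6 * i + r) / 6 = i := by omega
    have h3 : (6 * i + r) % 6 = r := by omega
    rw [h2, h3, hA] at h1
    exact sub_ivl' h1 (hadj _ _ (Or.inl (Ed.U _)))
  have hy : ∀ (r : ℕ) (hr : r < 6), S (.y ⟨6 * i + r, by omega⟩) ⊆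
      ivl a (zs m e r) (3 * m + e) := by
    intro r hr
    have h1 := (hS (.y ⟨6 * i + r, by omega⟩)).1
    simp only [lst] at h1
    have h2 : (6 * i + r) / 6 = i := by omega
    have h3 : (6 * i + r) % 6 = r := by omega
    rw [h2, h3, hB] at h1
    exact sub_ivl' h1 (hadj _ _ (Or.inl (Ed.U' _)))
  have hW : ∀ p : Fin 14, S (vert (6 * N) i hn p) ⊆ ivl a (lo m e p) (ln m e p) := by
    intro p
    fin_cases p
    · exact hc 0 (by norm_num)
    · exact hc 1 (by norm_num)
    · exact hc 2 (by norm_num)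
    · exact hc 3 (by norm_num)
    · exact hc 4 (by norm_num)
    · exact hc 5 (by norm_num)
    · exact hz 0 (by norm_num)
    · exact hz 1 (by norm_num)
    · exact hz 3 (by norm_num)
    · exact hz 4 (by norm_num)
    · exact hy 0 (by norm_num)
    · exact hy 1 (by norm_num)
    · exact hy 3 (by norm_num)
    · exact hy 4 (by norm_num)
  have hdis : ∀ p q : Fin 14, p < q →
      Disjoint (S (vert (6 * N) i hn p)) (S (vert (6 * N) i hn q)) := by
    intro p q hpq
    rcases pairs m e (6 * N) i hn p q hpq with h1 | h1 | h1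
    · exact hadj _ _ h1
    · exact (ivl_disj _ _ _ _ _ h1).mono (hW p) (hW q)
    · exact ((ivl_disj _ _ _ _ _ h1).mono (hW q) (hW p)).symm
  have hpw : ((Finset.univ : Finset (Fin 14)) : Set (Fin 14)).PairwiseDisjoint
      (fun p => S (vert (6 * N) i hn p)) := by
    intro p _ q _ hpq
    rcases lt_or_gt_of_ne hpq with h1 | h1
    · exact hdis p q h1
    · exact (hdis q p h1).symm
  have h1 := Finset.card_biUnion hpw
  have h2 : (Finset.univ.biUnion (fun p => S (vert (6 * N) i hn p))) ⊆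
      ivl a 0 (12 * m + 5 * e) := by
    intro x hx
    obtain ⟨p, -, hp⟩ := Finset.mem_biUnion.1 hx
    refine ivl_sub _ _ _ _ ?_ (hW p hp)
    fin_cases p <;> simp [lo, ln] <;> omega
  have h3 := Finset.card_le_card h2
  rw [h1, card_ivl] at h3
  simp only [(hS _).2, Finset.sum_const, Finset.card_univ, Fintype.card_fin, smul_eq_mul] at h3
  omega

end Pool.Agent.Work.MP_0890ba_co
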