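import Pool.Agent.Work.MP_0890ba_co.Defs

/-!
# The planar graphs `T n`
-/

namespace Pool.Agent.Work.MP_0890ba_co

/-- Vertices of the graph `T n`. -/
inductive Vx (n : ℕ) : Type
  | u : Vx n
  | v : Vx n
  | c : Fin n → Vx n
  | z : Fin n → Vx n
  | y : Fin n → Vx n

/-- The edges of `T n`, oriented. -/
inductive Ed (n : ℕ) : Vx n → Vx n → Prop
  | O : Ed n .u .v
  | A (j : Fin n) : Ed n .u (.c j)
  | A' (j : Fin n) : Ed n .v (.c j)
  | U (j : Fin n) : Ed n .u (.z j)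
  | U' (j : Fin n) : Ed n .v (.y j)
  | B (j : Fin n) : Ed n (.z j) (.c j)
  | B' (j : Fin n) : Ed n (.y j) (.c j)
  | C (j k : Fin n) (h : k.val = j.val + 1) : Ed n (.z j) (.c k)
  | C' (j k : Fin n) (h : k.val = j.val + 1) : Ed n (.y j) (.c k)
  | H (j : Fin n) (h : j.val % 6 ≠ 2) : Ed n (.z j) (.y j)
  | V (j k : Fin n) (h : k.val = j.val + 1) (h2 : j.val % 6 = 2) : Ed n (.c j) (.c k)

/-- The graph `T n`. -/
def T (n : ℕ) : SimpleGraph (Vx n) where
  Adj a b := Ed n a b ∨ Ed n b a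
  symm := ⟨fun _ _ h => h.symm⟩
  loopless := ⟨fun a h => by
    rcases h with h | h <;> · cases h; try omega⟩

/-- The drawing of `T n`. -/
noncomputable def pos {n : ℕ} : Vx n → ℝ × ℝ
  | .u => (-2, 0)
  | .v => (2, 0)
  | .c j => (0, 4 ^ j.val)
  | .z j => (-1, 3 / 2 * 4 ^ j.val)
  | .y j => (1, 3 / 2 * 4 ^ j.val)

/-- Codes of edges up to reflection. -/
inductive K : Type
  | O : K
  | A : ℕ → K
  | U : ℕ → K
  | B : ℕ → K
  | C : ℕ → K
  | H : ℕ → K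
  | V : ℕ → K

/-- The points of the edges, with `t = |x|`. -/
def OnK : K → ℝ → ℝ → Prop
  | .O, t, y => 0 ≤ t ∧ t ≤ 2 ∧ y = 0
  | .A j, t, y => 0 ≤ t ∧ t ≤ 2 ∧ y = 4 ^ j * (2 - t) / 2
  | .U j, t, y => 1 ≤ t ∧ t ≤ 2 ∧ y = 3 / 2 * 4 ^ j * (2 - t)
  | .B j, t, y => 0 ≤ t ∧ t ≤ 1 ∧ y = 4 ^ j * (1 + t / 2)
  | .C j, t, y => 0 ≤ t ∧ t ≤ 1 ∧ y = 4 ^ j * (4 - 5 / 2 * t)
  | .H j, t, y => 0 ≤ t ∧ t ≤ 1 ∧ y = 3 / 2 * 4 ^ j
  | .V j, t, y => t = 0 ∧ 4 ^ j ≤ y ∧ y ≤ 4 * 4 ^ j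

/-- The special points. -/
def Special (t y : ℝ) : Prop :=
  (t = 2 ∧ y = 0) ∨ (∃ j : ℕ, t = 1 ∧ y = 3 / 2 * 4 ^ j) ∨ (∃ j : ℕ, t = 0 ∧ y = 4 ^ j)

/-- Which code belongs to which edge. -/
inductive Rel (n : ℕ) : K → Vx n → Vx n → ℝ → Prop
  | O (x : ℝ) : Rel n .O .u .v x
  | A (j : Fin n) (x : ℝ) (h : x ≤ 0) : Rel n (.A j.val) .u (.c j) x
  | A' (j : Fin n) (x : ℝ) (h : 0 ≤ x) : Rel n (.A j.val) .v (.c j) x
  | U (j : Fin n) (x : ℝ) (h : x ≤ 0) : Rel n (.U j.val) .u (.z j) x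
  | U' (j : Fin n) (x : ℝ) (h : 0 ≤ x) : Rel n (.U j.val) .v (.y j) x
  | B (j : Fin n) (x : ℝ) (h : x ≤ 0) : Rel n (.B j.val) (.z j) (.c j) x
  | B' (j : Fin n) (x : ℝ) (h : 0 ≤ x) : Rel n (.B j.val) (.y j) (.c j) x
  | C (j k : Fin n) (x : ℝ) (h : x ≤ 0) (hk : k.val = j.val + 1) :
      Rel n (.C j.val) (.z j) (.c k) x
  | C' (j k : Fin n) (x : ℝ) (h : 0 ≤ x) (hk : k.val = j.val + 1) :
      Rel n (.C j.val) (.y j) (.c k) x
  | H (j : Fin n) (x : ℝ) (h : j.val % 6 ≠ 2) : Rel n (.H j.val) (.z j) (.y j) x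
  | V (j k : Fin n) (x : ℝ) (hk : k.val = j.val + 1) (h2 : j.val % 6 = 2) :
      Rel n (.V j.val) (.c j) (.c k) x

lemma pw_pos (j : ℕ) : (0 : ℝ) < 4 ^ j := by positivity

lemma mem_seg {a b p : ℝ × ℝ} (h : p ∈ segment ℝ a b) :
    ∃ s t : ℝ, 0 ≤ s ∧ 0 ≤ t ∧ s + t = 1 ∧ p.1 = s * a.1 + t * b.1 ∧
      p.2 = s * a.2 + t * b.2 := by
  obtain ⟨s, t, hs, ht, hst, rfl⟩ := h
  exact ⟨s, t, hs, ht, hst, by simp, by simp⟩

/-- Explicit description of the points of an edge. -/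
lemma ed_on {n : ℕ} {a b : Vx n} (h : Ed n a b) {p : ℝ × ℝ}
    (hp : p ∈ segment ℝ (pos a) (pos b)) : ∃ k, OnK k |p.1| p.2 ∧ Rel n k a b p.1 := by
  obtain ⟨s, t, hs, ht, hst, h1, h2⟩ := mem_seg hp
  have hs' : s = 1 - t := by linarith
  subst hs'
  cases h with
  | O =>
    simp only [pos] at h1 h2
    refine ⟨.O, ⟨abs_nonneg _, ?_, by simpa using h2⟩, .O _⟩
    rw [abs_le]; constructor <;> linarith
  | A j =>
    simp only [pos] at h1 h2
    have hx : p.1 ≤ 0 := by linarith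
    refine ⟨.A j.val, ?_, .A j _ hx⟩
    rw [abs_of_nonpos hx]
    refine ⟨by linarith, by linarith, ?_⟩
    rw [h2, h1]; ring
  | A' j =>
    simp only [pos] at h1 h2
    have hx : 0 ≤ p.1 := by linarith
    refine ⟨.A j.val, ?_, .A' j _ hx⟩
    rw [abs_of_nonneg hx]
    refine ⟨by linarith, by linarith, ?_⟩
    rw [h2, h1]; ring
  | U j =>
    simp only [pos] at h1 h2
    have hx : p.1 ≤ 0 := by linarith
    refine ⟨.U j.val, ?_, .U j _ hx⟩
    rw [abs_of_nonpos hx]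
    refine ⟨by linarith, by linarith, ?_⟩
    rw [h2, h1]; ring
  | U' j =>
    simp only [pos] at h1 h2
    have hx : 0 ≤ p.1 := by linarith
    refine ⟨.U j.val, ?_, .U' j _ hx⟩
    rw [abs_of_nonneg hx]
    refine ⟨by linarith, by linarith, ?_⟩
    rw [h2, h1]; ring
  | B j =>
    simp only [pos] at h1 h2
    have hx : p.1 ≤ 0 := by linarith
    refine ⟨.B j.val, ?_, .B j _ hx⟩
    rw [abs_of_nonpos hx]
    refine ⟨by linarith, by linarith, ?_⟩
    rw [h2, h1]; ring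
  | B' j =>
    simp only [pos] at h1 h2
    have hx : 0 ≤ p.1 := by linarith
    refine ⟨.B j.val, ?_, .B' j _ hx⟩
    rw [abs_of_nonneg hx]
    refine ⟨by linarith, by linarith, ?_⟩
    rw [h2, h1]; ring
  | C j k hk =>
    simp only [pos] at h1 h2
    have hx : p.1 ≤ 0 := by linarith
    refine ⟨.C j.val, ?_, .C j k _ hx hk⟩
    rw [abs_of_nonpos hx]
    refine ⟨by linarith, by linarith, ?_⟩
    rw [h2, h1, hk, pow_succ]; ring
  | C' j k hk =>
    simp only [pos] at h1 h2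
    have hx : 0 ≤ p.1 := by linarith
    refine ⟨.C j.val, ?_, .C' j k _ hx hk⟩
    rw [abs_of_nonneg hx]
    refine ⟨by linarith, by linarith, ?_⟩
    rw [h2, h1, hk, pow_succ]; ring
  | H j hj =>
    simp only [pos] at h1 h2
    refine ⟨.H j.val, ⟨abs_nonneg _, ?_, ?_⟩, .H j _ hj⟩
    · rw [abs_le]; constructor <;> linarith
    · rw [h2]; ring
  | V j k hk h6 =>
    simp only [pos] at h1 h2
    have hx : p.1 = 0 := by rw [h1]; ring
    refine ⟨.V j.val, ?_, .V j k _ hk h6⟩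
    have hp := pw_pos j.val
    rw [hk, pow_succ] at h2
    refine ⟨by rw [hx, abs_zero], ?_, ?_⟩
    · rw [h2]; nlinarith
    · rw [h2]; nlinarith

/-- Comparison of powers of `4`. -/
lemma pw_cmp (i j : ℕ) : (i = j) ∨ ((4 : ℝ) * 4 ^ i ≤ 4 ^ j) ∨ ((4 : ℝ) * 4 ^ j ≤ 4 ^ i) := by
  rcases lt_trichotomy i j with h | h | h
  · right; left
    calc (4 : ℝ) * 4 ^ i = 4 ^ (i + 1) := by rw [pow_succ]; ring
      _ ≤ 4 ^ j := pow_le_pow_right₀ (by norm_num) h
  · left; exact h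
  · right; right
    calc (4 : ℝ) * 4 ^ j = 4 ^ (j + 1) := by rw [pow_succ]; ring
      _ ≤ 4 ^ i := pow_le_pow_right₀ (by norm_num) h

lemma pw_ne {i j : ℕ} (h : i ≠ j) : ((4 : ℝ) * 4 ^ i ≤ 4 ^ j) ∨ ((4 : ℝ) * 4 ^ j ≤ 4 ^ i) := by
  rcases pw_cmp i j with h1 | h1 | h1
  · exact absurd h1 h
  · exact Or.inl h1
  · exact Or.inr h1

lemma pw_cmp' (i j : ℕ) : (i ≤ j ∧ (4 : ℝ) ^ i ≤ 4 ^ j) ∨ (i = j + 1) ∨
    ((16 : ℝ) * 4 ^ j ≤ 4 ^ i) := by
  rcases lt_trichotomy i (j + 1) with h | h | h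
  · left
    exact ⟨by omega, pow_le_pow_right₀ (by norm_num) (by omega)⟩
  · right; left; exact h
  · right; right
    calc (16 : ℝ) * 4 ^ j = 4 ^ (j + 2) := by rw [pow_add]; norm_num; ring
      _ ≤ 4 ^ i := pow_le_pow_right₀ (by norm_num) h

section meet

variable {t y : ℝ}

lemma mOA (i : ℕ) (h1 : OnK .O t y) (h2 : OnK (.A i) t y) : Special t y := by
  obtain ⟨-, -, h1⟩ := h1
  obtain ⟨a, b, h2⟩ := h2
  left
  have := pw_pos i
  refine ⟨?_, h1⟩
  rw [h1] at h2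
  nlinarith

lemma mOU (i : ℕ) (h1 : OnK .O t y) (h2 : OnK (.U i) t y) : Special t y := by
  obtain ⟨-, -, h1⟩ := h1
  obtain ⟨a, b, h2⟩ := h2
  left
  have := pw_pos i
  refine ⟨?_, h1⟩
  rw [h1] at h2
  nlinarith

lemma mOB (i : ℕ) (h1 : OnK .O t y) (h2 : OnK (.B i) t y) : Special t y := by
  obtain ⟨-, -, h1⟩ := h1
  obtain ⟨a, b, h2⟩ := h2
  have := pw_pos i
  exfalso
  nlinarith

lemma mOC (i : ℕ) (h1 : OnK .O t y) (h2 : OnK (.C i) t y) : Special t y := by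
  obtain ⟨-, -, h1⟩ := h1
  obtain ⟨a, b, h2⟩ := h2
  have := pw_pos i
  exfalso
  nlinarith

lemma mOH (i : ℕ) (h1 : OnK .O t y) (h2 : OnK (.H i) t y) : Special t y := by
  obtain ⟨-, -, h1⟩ := h1
  obtain ⟨a, b, h2⟩ := h2
  have := pw_pos i
  exfalso
  nlinarith

lemma mOV (i : ℕ) (h1 : OnK .O t y) (h2 : OnK (.V i) t y) : Special t y := by
  obtain ⟨-, -, h1⟩ := h1
  obtain ⟨a, b, h2⟩ := h2
  have := pw_pos i
  exfalso
  nlinarith

lemma mAA (i j : ℕ) (hne : i ≠ j) (h1 : OnK (.A i) t y) (h2 : OnK (.A j) t y) :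
    Special t y := by
  obtain ⟨a, b, h1⟩ := h1
  obtain ⟨-, -, h2⟩ := h2
  have hX := pw_pos i
  have hY := pw_pos j
  left
  have h3 : (4 : ℝ) ^ i * (2 - t) = 4 ^ j * (2 - t) := by linarith
  have h4 : t = 2 := by
    rcases pw_ne hne with h | h <;> nlinarith
  exact ⟨h4, by rw [h1, h4]; ring⟩

lemma mAU (i j : ℕ) (h1 : OnK (.A i) t y) (h2 : OnK (.U j) t y) :
    Special t y := by
  obtain ⟨a, b, h1⟩ := h1
  obtain ⟨-, -, h2⟩ := h2
  have hX := pw_pos i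
  have hY := pw_pos j
  left
  have h3 : (4 : ℝ) ^ i * (2 - t) = 3 * (4 ^ j * (2 - t)) := by linarith
  have h4 : t = 2 := by
    rcases pw_cmp i j with h | h | h
    · subst h; nlinarith
    · nlinarith
    · nlinarith
  exact ⟨h4, by rw [h1, h4]; ring⟩

lemma mAB (i j : ℕ) (h1 : OnK (.A i) t y) (h2 : OnK (.B j) t y) :
    Special t y := by
  obtain ⟨-, -, h1⟩ := h1
  obtain ⟨a, b, h2⟩ := h2
  have hX := pw_pos i
  have hY := pw_pos j
  have h3 : (4 : ℝ) ^ i * (2 - t) = 4 ^ j * (2 + t) := by linarith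
  rcases pw_cmp i j with h | h | h
  · subst h
    right; right
    have h4 : t = 0 := by nlinarith
    exact ⟨i, h4, by rw [h1, h4]; ring⟩
  · exfalso; nlinarith
  · exfalso; nlinarith

lemma mAC (i j : ℕ) (h1 : OnK (.A i) t y) (h2 : OnK (.C j) t y) :
    Special t y := by
  obtain ⟨-, -, h1⟩ := h1
  obtain ⟨a, b, h2⟩ := h2
  have hX := pw_pos i
  have hY := pw_pos j
  have h3 : (4 : ℝ) ^ i * (2 - t) = 4 ^ j * (8 - 5 * t) := by linarith
  rcases pw_cmp' i j with ⟨-, h⟩ | h | h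
  · exfalso; nlinarith
  · right; right
    rw [h, pow_succ] at h3
    have h4 : t = 0 := by nlinarith
    exact ⟨i, h4, by rw [h1, h4]; ring⟩
  · exfalso; nlinarith

lemma mAH (i j : ℕ) (h1 : OnK (.A i) t y) (h2 : OnK (.H j) t y) :
    Special t y := by
  obtain ⟨-, -, h1⟩ := h1
  obtain ⟨a, b, h2⟩ := h2
  have hX := pw_pos i
  have hY := pw_pos j
  have h3 : (4 : ℝ) ^ i * (2 - t) = 3 * 4 ^ j := by linarith
  exfalso
  rcases pw_cmp i j with h | h | h
  · subst h; nlinarith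
  · nlinarith
  · nlinarith

lemma mAV (i j : ℕ) (h1 : OnK (.A i) t y) (h2 : OnK (.V j) t y) :
    Special t y := by
  obtain ⟨-, -, h1⟩ := h1
  obtain ⟨a, -, -⟩ := h2
  right; right
  exact ⟨i, a, by rw [h1, a]; ring⟩

lemma mUU (i j : ℕ) (hne : i ≠ j) (h1 : OnK (.U i) t y) (h2 : OnK (.U j) t y) :
    Special t y := by
  obtain ⟨a, b, h1⟩ := h1
  obtain ⟨-, -, h2⟩ := h2
  have hX := pw_pos i
  have hY := pw_pos j
  left
  have h3 : (4 : ℝ) ^ i * (2 - t) = 4 ^ j * (2 - t) := by linarith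
  have h4 : t = 2 := by
    rcases pw_ne hne with h | h <;> nlinarith
  exact ⟨h4, by rw [h1, h4]; ring⟩

lemma mU1 (i : ℕ) (h1 : OnK (.U i) t y) (h : t ≤ 1) : Special t y := by
  obtain ⟨a, b, h1⟩ := h1
  have ht : t = 1 := le_antisymm h a
  right; left
  exact ⟨i, ht, by rw [h1, ht]; ring⟩

lemma mUV (i j : ℕ) (h1 : OnK (.U i) t y) (h2 : OnK (.V j) t y) :
    Special t y := by
  obtain ⟨a, -, -⟩ := h1
  obtain ⟨b, -, -⟩ := h2
  exfalso; linarith

lemma mBB (i j : ℕ) (hne : i ≠ j) (h1 : OnK (.B i) t y) (h2 : OnK (.B j) t y) :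
    Special t y := by
  obtain ⟨a, b, h1⟩ := h1
  obtain ⟨-, -, h2⟩ := h2
  have hX := pw_pos i
  have hY := pw_pos j
  exfalso
  have h3 : (4 : ℝ) ^ i * (2 + t) = 4 ^ j * (2 + t) := by linarith
  rcases pw_ne hne with h | h <;> nlinarith

lemma mBC (i j : ℕ) (h1 : OnK (.B i) t y) (h2 : OnK (.C j) t y) :
    Special t y := by
  obtain ⟨-, -, h1⟩ := h1
  obtain ⟨a, b, h2⟩ := h2
  have hX := pw_pos i
  have hY := pw_pos j
  have h3 : (4 : ℝ) ^ i * (2 + t) = 4 ^ j * (8 - 5 * t) := by linarith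
  rcases pw_cmp' i j with ⟨h5, h⟩ | h | h
  · rcases Nat.lt_or_ge i j with h6 | h6
    · exfalso
      rcases pw_ne h6.ne with h | h
      · nlinarith
      · nlinarith
    · have : i = j := by omega
      subst this
      right; left
      have h4 : t = 1 := by nlinarith
      exact ⟨i, h4, by rw [h1, h4]; ring⟩
  · right; right
    rw [h, pow_succ] at h3
    have h4 : t = 0 := by nlinarith
    exact ⟨i, h4, by rw [h1, h4]; ring⟩
  · exfalso; nlinarith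

lemma mBH (i j : ℕ) (h1 : OnK (.B i) t y) (h2 : OnK (.H j) t y) :
    Special t y := by
  obtain ⟨-, -, h1⟩ := h1
  obtain ⟨a, b, h2⟩ := h2
  have hX := pw_pos i
  have hY := pw_pos j
  have h3 : (4 : ℝ) ^ i * (2 + t) = 3 * 4 ^ j := by linarith
  rcases pw_cmp i j with h | h | h
  · subst h
    right; left
    have h4 : t = 1 := by nlinarith
    exact ⟨i, h4, by rw [h1, h4]; ring⟩
  · exfalso; nlinarith
  · exfalso; nlinarith

lemma mBV (i j : ℕ) (h1 : OnK (.B i) t y) (h2 : OnK (.V j) t y) :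
    Special t y := by
  obtain ⟨-, -, h1⟩ := h1
  obtain ⟨a, -, -⟩ := h2
  right; right
  exact ⟨i, a, by rw [h1, a]; ring⟩

lemma mCC (i j : ℕ) (hne : i ≠ j) (h1 : OnK (.C i) t y) (h2 : OnK (.C j) t y) :
    Special t y := by
  obtain ⟨a, b, h1⟩ := h1
  obtain ⟨-, -, h2⟩ := h2
  have hX := pw_pos i
  have hY := pw_pos j
  exfalso
  have h3 : (4 : ℝ) ^ i * (8 - 5 * t) = 4 ^ j * (8 - 5 * t) := by linarith
  rcases pw_ne hne with h | h <;> nlinarith

lemma mCH (i j : ℕ) (h1 : OnK (.C i) t y) (h2 : OnK (.H j) t y) :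
    Special t y := by
  obtain ⟨-, -, h1⟩ := h1
  obtain ⟨a, b, h2⟩ := h2
  have hX := pw_pos i
  have hY := pw_pos j
  have h3 : (4 : ℝ) ^ i * (8 - 5 * t) = 3 * 4 ^ j := by linarith
  rcases pw_cmp i j with h | h | h
  · subst h
    right; left
    have h4 : t = 1 := by nlinarith
    exact ⟨i, h4, by rw [h1, h4]; ring⟩
  · exfalso; nlinarith
  · exfalso; nlinarith

lemma mCV (i j : ℕ) (h1 : OnK (.C i) t y) (h2 : OnK (.V j) t y) :
    Special t y := by
  obtain ⟨-, -, h1⟩ := h1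
  obtain ⟨a, -, -⟩ := h2
  right; right
  exact ⟨i + 1, a, by rw [h1, a, pow_succ]; ring⟩

lemma mHH (i j : ℕ) (hne : i ≠ j) (h1 : OnK (.H i) t y) (h2 : OnK (.H j) t y) :
    Special t y := by
  obtain ⟨a, b, h1⟩ := h1
  obtain ⟨-, -, h2⟩ := h2
  have hX := pw_pos i
  have hY := pw_pos j
  exfalso
  rcases pw_ne hne with h | h <;> nlinarith

lemma mHV (i j : ℕ) (hne : i ≠ j) (h1 : OnK (.H i) t y) (h2 : OnK (.V j) t y) :
    Special t y := by
  obtain ⟨-, -, h1⟩ := h1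
  obtain ⟨a, b, h2⟩ := h2
  have hX := pw_pos i
  have hY := pw_pos j
  exfalso
  rcases pw_ne hne with h | h <;> nlinarith

lemma mVV (i j : ℕ) (hne : i ≠ j) (h1 : OnK (.V i) t y) (h2 : OnK (.V j) t y) :
    Special t y := by
  obtain ⟨a, b, h1⟩ := h1
  obtain ⟨-, c, h2⟩ := h2
  right; right
  rcases pw_ne hne with h | h
  · exact ⟨j, a, by linarith⟩
  · exact ⟨i, a, by linarith⟩

end meet

/-- Two different edges (up to reflection) meet in special points only. -/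
lemma meet {t y : ℝ} (k1 k2 : K) (h1 : OnK k1 t y) (h2 : OnK k2 t y) (hne : k1 ≠ k2)
    (hHV : ∀ j, ¬ (k1 = .H j ∧ k2 = .V j)) (hVH : ∀ j, ¬ (k1 = .V j ∧ k2 = .H j)) :
    Special t y := by
  cases k1 with
  | O => cases k2 with
    | O => exact absurd rfl hne
    | A j => exact mOA j h1 h2
    | U j => exact mOU j h1 h2
    | B j => exact mOB j h1 h2
    | C j => exact mOC j h1 h2
    | H j => exact mOH j h1 h2
    | V j => exact mOV j h1 h2
  | A i => cases k2 with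
    | O => exact mOA i h2 h1
    | A j => exact mAA i j (by rintro rfl; exact hne rfl) h1 h2
    | U j => exact mAU i j h1 h2
    | B j => exact mAB i j h1 h2
    | C j => exact mAC i j h1 h2
    | H j => exact mAH i j h1 h2
    | V j => exact mAV i j h1 h2
  | U i => cases k2 with
    | O => exact mOU i h2 h1
    | A j => exact mAU j i h2 h1
    | U j => exact mUU i j (by rintro rfl; exact hne rfl) h1 h2
    | B j => exact mU1 i h1 h2.2.1
    | C j => exact mU1 i h1 h2.2.1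
    | H j => exact mU1 i h1 h2.2.1
    | V j => exact mUV i j h1 h2
  | B i => cases k2 with
    | O => exact mOB i h2 h1
    | A j => exact mAB j i h2 h1
    | U j => exact mU1 j h2 h1.2.1
    | B j => exact mBB i j (by rintro rfl; exact hne rfl) h1 h2
    | C j => exact mBC i j h1 h2
    | H j => exact mBH i j h1 h2
    | V j => exact mBV i j h1 h2
  | C i => cases k2 with
    | O => exact mOC i h2 h1
    | A j => exact mAC j i h2 h1
    | U j => exact mU1 j h2 h1.2.1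
    | B j => exact mBC j i h2 h1
    | C j => exact mCC i j (by rintro rfl; exact hne rfl) h1 h2
    | H j => exact mCH i j h1 h2
    | V j => exact mCV i j h1 h2
  | H i => cases k2 with
    | O => exact mOH i h2 h1
    | A j => exact mAH j i h2 h1
    | U j => exact mU1 j h2 h1.2.1
    | B j => exact mBH j i h2 h1
    | C j => exact mCH j i h2 h1
    | H j => exact mHH i j (by rintro rfl; exact hne rfl) h1 h2
    | V j => exact mHV i j (by rintro rfl; exact hHV i ⟨rfl, rfl⟩) h1 h2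
  | V i => cases k2 with
    | O => exact mOV i h2 h1
    | A j => exact mAV j i h2 h1
    | U j => exact mUV j i h2 h1
    | B j => exact mBV j i h2 h1
    | C j => exact mCV j i h2 h1
    | H j => exact mHV j i (by rintro rfl; exact hVH j ⟨rfl, rfl⟩) h2 h1
    | V j => exact mVV i j (by rintro rfl; exact hne rfl) h1 h2

end Pool.Agent.Work.MP_0890ba_co
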